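import Mathlib

set_option autoImplicit false

namespace Pool.Agent.H.MP_57deef_al

open Set

def Germ (f : ℝ ≃o ℝ) (m : ℤ) : Prop :=
  ∃ b < 1, ∀ x, b ≤ x → x ≤ 1 → f x = 1 - 2 ^ m * (1 - x)

theorem Germ.one {f : ℝ ≃o ℝ} {m : ℤ} (h : Germ f m) : f 1 = 1 := by
  obtain ⟨b, hb, h⟩ := h
  simpa using h 1 hb.le le_rfl

theorem Germ.mul {f g : ℝ ≃o ℝ} {m n : ℤ} (hf : Germ f m) (hg : Germ g n) : Germ (f * g) (m + n) := by
  have g1 := hg.one
  obtain ⟨a, ha, hf⟩ := hf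
  obtain ⟨b, hb, hg⟩ := hg
  refine ⟨max b (g.symm a), max_lt hb (g.symm_apply_lt.2 (g1.symm ▸ ha)), fun x h1 h2 => ?_⟩
  change f (g x) = _
  rw [hf _ (g.symm_apply_le.1 (le_of_max_le_right h1)) (g1 ▸ g.monotone h2),
    hg x (le_of_max_le_left h1) h2, zpow_add₀ two_ne_zero]
  ring

theorem Germ.inv {f : ℝ ≃o ℝ} {m : ℤ} (hf : Germ f m) : Germ f⁻¹ (-m) := by
  have f1 := hf.one
  obtain ⟨a, ha, hf⟩ := hf
  refine ⟨f a, f1 ▸ f.strictMono ha, fun x h1 h2 => ?_⟩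
  have := hf (f.symm x) (f.le_symm_apply.2 h1) (f.symm_apply_le.2 (f1.symm ▸ h2))
  rw [f.apply_symm_apply] at this
  change f.symm x = _
  rw [show 1 - x = 2 ^ m * (1 - f.symm x) by linarith, ← mul_assoc, ← zpow_add₀ two_ne_zero]
  simp

theorem germ_one : Germ 1 0 := ⟨0, one_pos, fun x _ _ => by simp⟩

theorem Germ.zpow {f : ℝ ≃o ℝ} (hf : Germ f 1) (i : ℤ) : Germ (f ^ i) i := by
  induction i using Int.induction_on with
  | zero => simpa using germ_one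
  | succ i ih => simpa [zpow_add_one] using ih.mul hf
  | pred i ih => rw [zpow_sub_one, sub_eq_add_neg]; exact ih.mul hf.inv

def flip : (ℝ ≃o ℝ) →* (ℝ ≃o ℝ) where
  toFun f := ⟨⟨fun x => 1 - f (1 - x), fun x => 1 - f.symm (1 - x), fun x => by simp,
    fun x => by simp⟩, fun {a b} => by
      change 1 - f (1 - a) ≤ 1 - f (1 - b) ↔ a ≤ b
      rw [sub_le_sub_iff_left, f.le_iff_le, sub_le_sub_iff_left]⟩
  map_one' := by ext x; simp
  map_mul' f g := by ext x; simp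

@[simp] theorem flip_apply (f : ℝ ≃o ℝ) (x : ℝ) : flip f x = 1 - f (1 - x) := rfl

variable {G : Type} [Group G]

structure Hyp (ρ : G →* (ℝ ≃o ℝ)) : Prop where
  one : ∀ g x, 1 ≤ x → ρ g x = x
  germ : ∀ g, ∃ m, Germ (ρ g) m
  bump : ∀ p q : ℝ, 0 ≤ p → p < q → q ≤ 1 → ∃ s r δ, p < r ∧ r < q ∧ 0 < δ ∧
    ∀ x, ρ s x = min x (max ((x + r) / 2) (max (x - δ) (2 * x - 1)))

variable {ρ : G →* (ℝ ≃o ℝ)}

theorem mul_app (a b : G) (x : ℝ) : ρ (a * b) x = ρ a (ρ b x) := by simp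
theorem inv_app (a : G) (x : ℝ) : ρ a (ρ a⁻¹ x) = x := by simp
theorem inv_app' (a : G) (x : ℝ) : ρ a⁻¹ (ρ a x) = x := by simp

def Fix (ρ : G →* (ℝ ≃o ℝ)) (S : Set ℝ) : Subgroup G where
  carrier := {g | ∀ x ∈ S, ρ g x = x}
  one_mem' := fun x _ => by simp
  mul_mem' := fun ha hb x hx => by rw [mul_app, hb x hx, ha x hx]
  inv_mem' := fun {a} ha x hx => (ρ a).injective (by rw [inv_app, ha x hx])

theorem Hyp.bump' (h : Hyp ρ) (p q : ℝ) (h0 : 0 ≤ p) (hpq : p < q) (h1 : q ≤ 1) :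
    ∃ s r, r < q ∧ s ∈ Fix ρ (Iic p) ∧ (∀ x, ρ s x ≤ x) ∧ Germ (ρ s) 1 ∧
      ∀ k t, r < k → t < 1 → ∃ η > 0, ∀ x, k ≤ x → x ≤ t → ρ s x ≤ x - η := by
  obtain ⟨s, r, δ, h2, h3, h4, hs⟩ := h.bump p q h0 hpq h1
  refine ⟨s, r, h3, fun x hx => ?_, fun x => hs x ▸ min_le_left _ _,
    ⟨max (1 - δ) ((r + 2) / 3), max_lt (by linarith) (by linarith), fun x h5 h6 => ?_⟩,
    fun k t h5 h6 => ⟨min ((k - r) / 2) (min δ (1 - t)), lt_min (by linarith) (lt_min h4 (by linarith)),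
      fun x h7 h8 => ?_⟩⟩
  · rw [hs, min_eq_left (le_max_of_le_left (by linarith [mem_Iic.1 hx]))]
  · have := le_of_max_le_left h5
    have := le_of_max_le_right h5
    rw [hs, max_eq_right (a := x - δ) (by linarith), max_eq_right (by linarith),
      min_eq_right (by linarith)]
    ring
  · have := min_le_left ((k - r) / 2) (min δ (1 - t))
    have := (min_le_right ((k - r) / 2) _).trans (min_le_left δ (1 - t))
    have := (min_le_right ((k - r) / 2) _).trans (min_le_right δ (1 - t))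
    rw [hs]
    exact min_le_of_right_le (max_le (by linarith) (max_le (by linarith) (by linarith)))

theorem pow_le {s : G} (hs : ∀ x, ρ s x ≤ x) (n : ℕ) (x : ℝ) : ρ (s ^ n) x ≤ x := by
  induction n with
  | zero => simp
  | succ n ih => rw [pow_succ', mul_app]; exact (hs _).trans ih

theorem le_pow {s : G} (hs : ∀ x, x ≤ ρ s x) (n : ℕ) (x : ℝ) : x ≤ ρ (s ^ n) x := by
  induction n with
  | zero => simp
  | succ n ih => rw [pow_succ', mul_app]; exact ih.trans (hs _)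

theorem Hyp.push (h : Hyp ρ) (p k t : ℝ) (h0 : 0 ≤ p) (hpk : p < k) (h1 : k ≤ 1) (ht : t < 1) :
    ∃ g ∈ Fix ρ (Iic p), (∀ x, ρ g x ≤ x) ∧ ρ g t < k := by
  obtain ⟨s, r, h2, h3, h4, -, h5⟩ := h.bump' p k h0 hpk h1
  obtain ⟨η, hη, h6⟩ := h5 ((r + k) / 2) t (by linarith) ht
  have key : ∀ n : ℕ, ρ (s ^ n) t ≤ max ((r + k) / 2) (t - n * η) := by
    intro n
    induction n with
    | zero => simp
    | succ n ih =>
      rw [pow_succ', mul_app]
      rcases le_total ((r + k) / 2) (ρ (s ^ n) t) with h7 | h7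
      · have := h6 _ h7 (pow_le h4 n t)
        rcases le_max_iff.1 ih with h8 | h8
        · exact le_max_of_le_left (by linarith)
        · exact le_max_of_le_right (by push_cast; linarith)
      · exact le_max_of_le_left ((h4 _).trans h7)
  obtain ⟨n, hn⟩ := exists_nat_gt ((t - k) / η)
  rw [div_lt_iff₀ hη] at hn
  exact ⟨s ^ n, pow_mem h3 n, pow_le h4 n, (key n).trans_lt (max_lt (by linarith) (by linarith))⟩

theorem Germ.unique {f : ℝ ≃o ℝ} {m n : ℤ} (hm : Germ f m) (hn : Germ f n) : m = n := by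
  obtain ⟨a, ha, hm⟩ := hm
  obtain ⟨b, hb, hn⟩ := hn
  have h1 := max_lt ha hb
  have e := (hm _ (le_max_left a b) h1.le).symm.trans (hn _ (le_max_right a b) h1.le)
  have e2 : (2 : ℝ) ^ m = 2 ^ n :=
    mul_right_cancel₀ (sub_pos.2 h1).ne' (by linarith)
  exact zpow_right_injective₀ two_pos (by norm_num) e2

/-- slope exponent at the end 1 -/
noncomputable def chi (h : Hyp ρ) (g : G) : ℤ := (h.germ g).choose

theorem chi_spec (h : Hyp ρ) (g : G) : Germ (ρ g) (chi h g) := (h.germ g).choose_spec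

theorem chi_eq (h : Hyp ρ) {g : G} {m : ℤ} (hm : Germ (ρ g) m) : chi h g = m :=
  (chi_spec h g).unique hm

theorem chi_mul (h : Hyp ρ) (a b : G) : chi h (a * b) = chi h a + chi h b :=
  chi_eq h (by rw [map_mul]; exact (chi_spec h a).mul (chi_spec h b))

theorem chi_inv (h : Hyp ρ) (a : G) : chi h a⁻¹ = - chi h a :=
  chi_eq h (by rw [map_inv]; exact (chi_spec h a).inv)

theorem chi_one (h : Hyp ρ) : chi h 1 = 0 := chi_eq h (by rw [map_one]; exact germ_one)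

theorem chi_zpow (h : Hyp ρ) (a : G) (n : ℤ) : chi h (a ^ n) = n * chi h a := by
  induction n using Int.induction_on with
  | zero => simp [chi_one]
  | succ i ih => rw [zpow_add_one, chi_mul, ih]; ring
  | pred i ih => rw [zpow_sub_one, chi_mul, ih, chi_inv]; ring

theorem chi_zero_iff (h : Hyp ρ) (g : G) : chi h g = 0 ↔ ∃ b < 1, g ∈ Fix ρ (Ici b) := by
  constructor
  · intro h0
    obtain ⟨b, hb, h1⟩ := chi_spec h g
    refine ⟨b, hb, fun x hx => ?_⟩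
    rcases le_total x 1 with h2 | h2
    · rw [h1 x hx h2, h0]; simp
    · exact h.one _ _ h2
  · rintro ⟨b, hb, h1⟩
    exact chi_eq h ⟨b, hb, fun x hx _ => by rw [h1 x hx]; simp⟩

/-- no fixed point in (z,1) -/
def NF (ρ : G →* (ℝ ≃o ℝ)) (g : G) (z : ℝ) : Prop := ∀ x, z < x → x < 1 → ρ g x ≠ x

theorem exists_NF (h : Hyp ρ) {g : G} (hg : chi h g ≠ 0) : ∃ z < 1, NF ρ g z := by
  obtain ⟨b, hb, h1⟩ := chi_spec h g
  refine ⟨b, hb, fun x x1 x2 e => hg ?_⟩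
  rw [h1 x x1.le x2.le] at e
  have e2 : (2 : ℝ) ^ chi h g = 2 ^ (0 : ℤ) :=
    mul_right_cancel₀ (sub_pos.2 x2).ne' (by rw [zpow_zero]; linarith)
  exact zpow_right_injective₀ two_pos (by norm_num) e2

theorem NF.conj (h : Hyp ρ) {g : G} {z : ℝ} (hg : NF ρ g z) (p : G) :
    NF ρ (p * g * p⁻¹) (ρ p z) := by
  intro x x1 x2 e
  rw [mul_app, mul_app] at e
  refine hg (ρ p⁻¹ x) ((ρ p).lt_iff_lt.1 (by rwa [inv_app])) ((ρ p).lt_iff_lt.1 ?_)
    ((ρ p).injective (by rw [e, inv_app]))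
  rwa [inv_app, h.one p 1 le_rfl]

theorem esc_pos (h : Hyp ρ) {g : G} {z x : ℝ} (hg : NF ρ g z) (x1 : z < x)
    (hx : x < ρ g x) (b : ℝ) (hb : b < 1) : ∃ n : ℕ, b ≤ ρ (g ^ n) x := by
  by_contra hc
  push Not at hc
  have mono : ∀ n : ℕ, ρ (g ^ n) x ≤ ρ (g ^ (n + 1)) x := fun n => by
    rw [pow_succ, mul_app]; exact (ρ (g ^ n)).monotone hx.le
  have bd : BddAbove (range fun n : ℕ => ρ (g ^ n) x) := ⟨b, by rintro _ ⟨n, rfl⟩; exact (hc n).le⟩
  have l1 : ∀ n : ℕ, ρ (g ^ n) x ≤ ⨆ n : ℕ, ρ (g ^ n) x := fun n => le_ciSup bd n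
  have l2 : ⨆ n : ℕ, ρ (g ^ n) x ≤ b := ciSup_le fun n => (hc n).le
  refine hg (⨆ n : ℕ, ρ (g ^ n) x) (x1.trans_le (by simpa using l1 0)) (l2.trans_lt hb) ?_
  apply le_antisymm
  · rw [← (ρ g).le_symm_apply]
    refine ciSup_le fun n => ?_
    rw [(ρ g).le_symm_apply, ← mul_app, ← pow_succ']
    exact l1 _
  · refine ciSup_le fun n => (mono n).trans ?_
    rw [pow_succ', mul_app]
    exact (ρ g).monotone (l1 n)

theorem esc (h : Hyp ρ) {g : G} {z x : ℝ} (hg : NF ρ g z) (x1 : z < x) (x2 : x < 1)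
    (b : ℝ) (hb : b < 1) : ∃ n : ℤ, b ≤ ρ (g ^ n) x := by
  rcases lt_or_gt_of_ne (hg x x1 x2) with h1 | h1
  · have hg' : NF ρ g⁻¹ z := fun y y1 y2 e => hg y y1 y2 (by
      conv_lhs => rw [← e]
      rw [inv_app])
    obtain ⟨n, hn⟩ := esc_pos h hg' x1 ((ρ g).lt_iff_lt.1 (by rwa [inv_app])) b hb
    exact ⟨-n, by simpa using hn⟩
  · obtain ⟨n, hn⟩ := esc_pos h hg x1 h1 b hb
    exact ⟨n, by simpa using hn⟩

theorem comm_fix (h : Hyp ρ) {g k : G} {z : ℝ} (hg : NF ρ g z) (hk : chi h k = 0)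
    (hc : Commute k g) (x : ℝ) (x1 : z < x) : ρ k x = x := by
  rcases le_or_gt 1 x with x2 | x2
  · exact h.one _ _ x2
  obtain ⟨b, hb, h1⟩ := (chi_zero_iff h k).1 hk
  obtain ⟨n, hn⟩ := esc h hg x1 x2 b hb
  have := h1 _ hn
  rw [← mul_app, (hc.zpow_right n).eq, mul_app] at this
  exact (ρ (g ^ n)).injective this

theorem comm_fix' (h : Hyp ρ) {g u : G} {z w : ℝ} (hg : NF ρ g z) (w1 : z < w) (w2 : w < 1)
    (hw : ρ u w = w) (hc : Commute u g) (x : ℝ) (x1 : z < x) : ρ u x = x := by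
  refine comm_fix h hg ?_ hc x x1
  by_contra h0
  obtain ⟨y, hy, h1⟩ := exists_NF h h0
  obtain ⟨n, hn⟩ := esc h hg w1 w2 ((y + 1) / 2) (by linarith)
  refine h1 (ρ (g ^ n) w) (by linarith) ?_ ?_
  · rw [← h.one (g ^ n) 1 le_rfl]; exact (ρ _).strictMono w2
  · rw [← mul_app, (hc.zpow_right n).eq, mul_app, hw]

theorem Hyp.bump2 (h : Hyp ρ) (p q : ℝ) (h0 : 0 ≤ p) (hpq : p < q) (h1 : q ≤ 1) :
    ∃ s r, p < r ∧ r < q ∧ s ∈ Fix ρ (Iic r) ∧ chi h s = 1 ∧ ∀ x, r < x → x < 1 → ρ s x < x := by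
  obtain ⟨s, r, δ, h2, h3, h4, hs⟩ := h.bump p q h0 hpq h1
  refine ⟨s, r, h2, h3, fun x hx => ?_, chi_eq h
    ⟨max (1 - δ) ((r + 2) / 3), max_lt (by linarith) (by linarith), fun x h5 h6 => ?_⟩,
    fun x x1 x2 => ?_⟩
  · rw [hs, min_eq_left (le_max_of_le_left (by linarith [mem_Iic.1 hx]))]
  · have := le_of_max_le_left h5
    have := le_of_max_le_right h5
    rw [hs, max_eq_right (a := x - δ) (by linarith), max_eq_right (by linarith),
      min_eq_right (by linarith)]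
    ring
  · rw [hs]
    exact (min_le_right _ _).trans_lt (max_lt (by linarith) (max_lt (by linarith) (by linarith)))

theorem comm_of_fix (inj : Function.Injective ρ) {s a : G} {r : ℝ} (hs : s ∈ Fix ρ (Iic r))
    (ha : a ∈ Fix ρ (Ici r)) : Commute s a := by
  apply inj
  ext x
  rw [mul_app, mul_app]
  rcases le_total x r with hx | hx
  · rw [hs x hx, hs]
    rw [mem_Iic, ← ha r (mem_Ici.2 le_rfl)]
    exact (ρ a).monotone hx
  · rw [ha x hx, ha]
    rw [mem_Ici, ← hs r (mem_Iic.2 le_rfl)]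
    exact (ρ s).monotone hx

theorem fix_flip (g : G) (b : ℝ) : g ∈ Fix (flip.comp ρ) (Iic b) ↔ g ∈ Fix ρ (Ici (1 - b)) := by
  constructor
  · intro h x hx
    have := h (1 - x) (by simp only [mem_Iic, mem_Ici] at *; linarith)
    simp only [MonoidHom.comp_apply, flip_apply, sub_sub_cancel] at this
    linarith
  · intro h x hx
    have := h (1 - x) (by simp only [mem_Iic, mem_Ici] at *; linarith)
    simp only [MonoidHom.comp_apply, flip_apply, this, sub_sub_cancel]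

theorem flip_flip (ρ : G →* (ℝ ≃o ℝ)) : flip.comp (flip.comp ρ) = ρ := by
  ext g x
  simp

theorem fix_flip' (g : G) (b : ℝ) : g ∈ Fix (flip.comp ρ) (Ici (1 - b)) ↔ g ∈ Fix ρ (Iic b) := by
  rw [← fix_flip, flip_flip]

/-- elements supported on the left -/
theorem Hyp.bump3 (h : Hyp (flip.comp ρ)) (p q : ℝ) (h0 : 0 ≤ p) (hpq : p < q) (h1 : q ≤ 1) :
    ∃ s r, p < r ∧ r < q ∧ s ∈ Fix ρ (Ici r) ∧ chi h s = 1 ∧ ∀ x, 0 < x → x < r → x < ρ s x := by
  obtain ⟨s, r, r1, r2, h2, h3, h4⟩ := h.bump2 (1 - q) (1 - p) (by linarith) (by linarith)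
    (by linarith)
  refine ⟨s, 1 - r, by linarith, by linarith, (fix_flip s r).1 h2, h3, fun x x1 x2 => ?_⟩
  have := h4 (1 - x) (by linarith) (by linarith)
  simp only [MonoidHom.comp_apply, flip_apply, sub_sub_cancel] at this
  linarith

end Pool.Agent.H.MP_57deef_al
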