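import Pool.Agent.H.MP_57deef_al.A

set_option autoImplicit false

namespace Pool.Agent.H.MP_57deef_al

open Set

variable {G : Type} [Group G] {ρ : G →* (ℝ ≃o ℝ)}

structure Hy (ρ : G →* (ℝ ≃o ℝ)) : Prop where
  inj : Function.Injective ρ
  h1 : Hyp ρ
  h0 : Hyp (flip.comp ρ)

theorem Hy.flip (h : Hy ρ) : Hy (flip.comp ρ) := by
  refine ⟨fun a b e => h.inj ?_, h.h0, by rw [flip_flip]; exact h.h1⟩
  ext x
  have := congrArg (fun f : ℝ ≃o ℝ => f (1 - x)) e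
  simpa using this

theorem Hy.zero (h : Hy ρ) (g : G) (x : ℝ) (hx : x ≤ 0) : ρ g x = x := by
  have := h.h0.one g (1 - x) (by linarith)
  simp only [MonoidHom.comp_apply, flip_apply, sub_sub_cancel] at this
  linarith

/-- kernel of the slope at 1 -/
def K (h : Hyp ρ) : Subgroup G where
  carrier := {g | chi h g = 0}
  one_mem' := chi_one h
  mul_mem' := fun {a b} ha hb => by
    simp only [mem_setOf_eq] at *
    rw [chi_mul, ha, hb, add_zero]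
  inv_mem' := fun {a} ha => by
    simp only [mem_setOf_eq] at *
    rw [chi_inv, ha, neg_zero]

theorem mem_K {h : Hyp ρ} {g : G} : g ∈ K h ↔ chi h g = 0 := Iff.rfl

theorem chi_conj (h : Hyp ρ) (p g : G) : chi h (p * g * p⁻¹) = chi h g := by
  rw [chi_mul, chi_mul, chi_inv]; ring

instance K_normal (h : Hyp ρ) : (K h).Normal :=
  ⟨fun g hg p => by rw [mem_K, chi_conj]; exact hg⟩

theorem pivot (h : Hy ρ) {k : G} (hk : k ≠ 1) (hK : chi h.h1 k = 0) :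
    ∃ w, 0 < w ∧ w < 1 ∧ ∀ u, Commute u k → ρ u w = w := by
  obtain ⟨b, hb, h1⟩ := (chi_zero_iff _ k).1 hK
  have bd : ∀ x ∈ {x | ρ k x ≠ x}, x ≤ b := fun x hx => by
    by_contra hc
    exact hx (h1 x (not_le.1 hc).le)
  obtain ⟨y, hy⟩ : ({x | ρ k x ≠ x} : Set ℝ).Nonempty := by
    by_contra hc
    refine hk (h.inj ?_)
    ext x
    by_contra hx
    exact hc ⟨x, by simpa using hx⟩
  have key : ∀ u, Commute u k → ρ u (sSup {x | ρ k x ≠ x}) ≤ sSup {x | ρ k x ≠ x} := by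
    intro u hu
    rw [← (ρ u).le_symm_apply]
    refine csSup_le ⟨y, hy⟩ fun x hx => ?_
    rw [(ρ u).le_symm_apply]
    refine le_csSup ⟨b, bd⟩ fun e => hx ?_
    rw [← mul_app, ← hu.eq, mul_app] at e
    exact (ρ u).injective e
  refine ⟨sSup {x | ρ k x ≠ x}, ?_, (csSup_le ⟨y, hy⟩ bd).trans_lt hb, fun u hu => ?_⟩
  · refine lt_of_lt_of_le ?_ (le_csSup ⟨b, bd⟩ hy)
    by_contra hc
    exact hy (h.zero k y (not_lt.1 hc))
  · refine le_antisymm (key u hu) ?_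
    have := (ρ u).monotone (key u⁻¹ hu.inv_left)
    rwa [inv_app] at this

theorem small_NF (h : Hyp ρ) {g : G} (hg : chi h g ≠ 0) {w : ℝ} (w0 : 0 < w) (w1 : w < 1) :
    ∃ p z, z < w ∧ NF ρ (p * g * p⁻¹) z := by
  obtain ⟨z, hz, h1⟩ := exists_NF h hg
  obtain ⟨p, -, -, hp⟩ := h.push 0 w z le_rfl w0 w1.le hz
  exact ⟨p, _, hp, h1.conj h p⟩

theorem dich (h : Hy ρ) (A : Subgroup G) [hA : A.Normal] (nc : ∃ a ∈ A, ∃ b ∈ A, ¬ Commute a b)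
    (hP : ∀ a ∈ A, ∀ b ∈ A, ∀ c ∈ A, ∃ u, u ≠ 1 ∧ Commute u a ∧ Commute u b ∧ Commute u c) :
    A ≤ K h.h1 ∨ A ≤ K h.h0 := by
  by_contra hc
  rw [not_or, SetLike.not_le_iff_exists, SetLike.not_le_iff_exists] at hc
  obtain ⟨⟨g1, m1, n1⟩, g0, m0, n0⟩ := hc
  obtain ⟨a, ha, b, hb, hab⟩ := nc
  have k1 : a * b * a⁻¹ * b⁻¹ ≠ 1 := fun e => hab (by
    rw [mul_inv_eq_one, mul_inv_eq_iff_eq_mul] at e
    exact e)
  obtain ⟨w, w0, w1, hw⟩ := pivot h k1 (by rw [chi_mul, chi_conj, chi_inv]; ring)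
  obtain ⟨p, z, hz, hp⟩ := small_NF h.h1 n1 w0 w1
  obtain ⟨q, y, hy, hq⟩ := small_NF h.h0 n0 (w := 1 - w) (by linarith) (by linarith)
  obtain ⟨u, u1, c1, c2, c3⟩ := hP _ (A.mul_mem (A.mul_mem (A.mul_mem ha hb) (A.inv_mem ha))
    (A.inv_mem hb)) _ (hA.conj_mem _ m1 p) _ (hA.conj_mem _ m0 q)
  refine u1 (h.inj ?_)
  ext x
  rw [map_one]
  change _ = x
  rcases lt_or_ge z x with hx | hx
  · exact comm_fix' h.h1 hp hz w1 (hw u c1) c2 x hx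
  · have := comm_fix' h.h0 hq hy (by linarith) (by simp [hw u c1]) c3 (1 - x) (by linarith)
    simp only [MonoidHom.comp_apply, flip_apply, sub_sub_cancel] at this
    linarith

theorem K_nc (h : Hy ρ) : ∃ a ∈ K h.h1, ∃ b ∈ K h.h1, ¬ Commute a b := by
  obtain ⟨s, r, r1, r2, s1, -, s2⟩ := h.h0.bump3 (1 / 2) 1 (by norm_num) (by norm_num) le_rfl
  obtain ⟨t, q, q1, q2, t1, -, t2⟩ := h.h0.bump3 0 (1 / 2) le_rfl (by norm_num) (by norm_num)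
  refine ⟨s, (chi_zero_iff _ _).2 ⟨r, r2, s1⟩, t, (chi_zero_iff _ _).2 ⟨q, by linarith, t1⟩,
    fun hc => ?_⟩
  have a1 : ρ s⁻¹ q < q := (ρ s).lt_iff_lt.1 (by rw [inv_app]; exact s2 q q1 (by linarith))
  have a2 : 0 < ρ s⁻¹ q := by
    rw [← h.zero s⁻¹ 0 le_rfl]; exact (ρ _).strictMono q1
  have a3 := t2 _ a2 a1
  rw [← mul_app, ← hc.inv_left.eq, mul_app, t1 q (mem_Ici.2 le_rfl)] at a3
  exact lt_irrefl _ a3

theorem K_P (h : Hy ρ) : ∀ a ∈ K h.h1, ∀ b ∈ K h.h1, ∀ c ∈ K h.h1,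
    ∃ u, u ≠ 1 ∧ Commute u a ∧ Commute u b ∧ Commute u c := by
  intro a ha b hb c hc
  obtain ⟨x, x1, x2⟩ := (chi_zero_iff _ _).1 ha
  obtain ⟨y, y1, y2⟩ := (chi_zero_iff _ _).1 hb
  obtain ⟨z, z1, z2⟩ := (chi_zero_iff _ _).1 hc
  obtain ⟨s, r, r1, r2, s1, s2, -⟩ := h.h1.bump2 (max 0 (max x (max y z))) 1 (le_max_left _ _)
    (max_lt one_pos (max_lt x1 (max_lt y1 z1))) le_rfl
  simp only [max_lt_iff] at r1
  refine ⟨s, fun e => ?_, comm_of_fix h.inj s1 fun t ht => x2 t (r1.2.1.le.trans ht),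
    comm_of_fix h.inj s1 fun t ht => y2 t (r1.2.2.1.le.trans ht),
    comm_of_fix h.inj s1 fun t ht => z2 t (r1.2.2.2.le.trans ht)⟩
  rw [e, chi_one] at s2
  exact zero_ne_one s2

theorem aut_K (h : Hy ρ) (α : G ≃* G) :
    (∀ g ∈ K h.h1, α g ∈ K h.h1) ∨ ∀ g ∈ K h.h1, α g ∈ K h.h0 := by
  haveI : ((K h.h1).map α.toMonoidHom).Normal := (K_normal h.h1).map _ α.surjective
  have := dich h ((K h.h1).map α.toMonoidHom) ?_ ?_
  · exact this.imp (fun e g hg => e ⟨g, hg, rfl⟩) fun e g hg => e ⟨g, hg, rfl⟩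
  · obtain ⟨a, ha, b, hb, hc⟩ := K_nc h
    refine ⟨_, ⟨a, ha, rfl⟩, _, ⟨b, hb, rfl⟩, fun e => hc (α.injective ?_)⟩
    rw [map_mul, map_mul]; exact e
  · rintro _ ⟨a, ha, rfl⟩ _ ⟨b, hb, rfl⟩ _ ⟨c, hc, rfl⟩
    obtain ⟨u, u1, c1, c2, c3⟩ := K_P h a ha b hb c hc
    exact ⟨α u, by simpa using u1, c1.map α, c2.map α, c3.map α⟩

theorem ex10 (h : Hy ρ) : ∃ s, chi h.h1 s = 1 ∧ chi h.h0 s = 0 := by
  obtain ⟨s, r, r1, r2, s1, s2, -⟩ := h.h1.bump2 0 1 le_rfl one_pos le_rfl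
  exact ⟨s, s2, (chi_zero_iff _ _).2 ⟨1 - r, by linarith, (fix_flip' s r).2 s1⟩⟩

theorem ex01 (h : Hy ρ) : ∃ s, chi h.h1 s = 0 ∧ chi h.h0 s = 1 := by
  obtain ⟨s, r, r1, r2, s1, s2, -⟩ := h.h0.bump3 0 1 le_rfl one_pos le_rfl
  exact ⟨s, (chi_zero_iff _ _).2 ⟨r, r2, s1⟩, s2⟩

theorem chi_congr {ρ' : G →* (ℝ ≃o ℝ)} (e : ρ = ρ') (h : Hyp ρ) (h' : Hyp ρ') (g : G) :
    chi h g = chi h' g := by
  subst e; rfl

theorem aut_K' (h : Hy ρ) (α : G ≃* G) :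
    (∀ g ∈ K h.h0, α g ∈ K h.h0) ∨ ∀ g ∈ K h.h0, α g ∈ K h.h1 := by
  refine (aut_K h.flip α).imp id fun e g hg => ?_
  rw [mem_K, ← chi_congr (flip_flip ρ) h.flip.h0]
  exact e g hg

def Pres (h : Hy ρ) (α : G ≃* G) : Prop :=
  ∀ g, (α g ∈ K h.h1 ↔ g ∈ K h.h1) ∧ (α g ∈ K h.h0 ↔ g ∈ K h.h0)

def Swap (h : Hy ρ) (α : G ≃* G) : Prop :=
  ∀ g, (α g ∈ K h.h1 ↔ g ∈ K h.h0) ∧ (α g ∈ K h.h0 ↔ g ∈ K h.h1)

theorem pres_or_swap (h : Hy ρ) (α : G ≃* G) : Pres h α ∨ Swap h α := by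
  obtain ⟨s, s1, s0⟩ := ex10 h
  obtain ⟨t, t1, t0⟩ := ex01 h
  have ns : s ∉ K h.h1 := fun e => by rw [mem_K, s1] at e; exact one_ne_zero e
  have nt : t ∉ K h.h0 := fun e => by rw [mem_K, t0] at e; exact one_ne_zero e
  have r : ∀ g, α.symm (α g) = g := α.symm_apply_apply
  rcases aut_K h α with a1 | a1 <;> rcases aut_K' h α with a0 | a0 <;>
    rcases aut_K h α.symm with b1 | b1 <;> rcases aut_K' h α.symm with b0 | b0
  any_goals first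
    | exact Or.inl fun g => ⟨⟨fun e => r g ▸ b1 _ e, a1 g⟩, fun e => r g ▸ b0 _ e, a0 g⟩
    | exact Or.inr fun g => ⟨⟨fun e => r g ▸ b1 _ e, a0 g⟩, fun e => r g ▸ b0 _ e, a1 g⟩
    | exact (nt (r t ▸ b1 _ (a1 t t1))).elim
    | exact (nt (r t ▸ b0 _ (a1 t t1))).elim
    | exact (ns (r s ▸ b1 _ (a0 s s0))).elim
    | exact (ns (r s ▸ b0 _ (a0 s s0))).elim

end Pool.Agent.H.MP_57deef_al
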