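import Pool.Agent.H.MP_57deef_al.B

set_option autoImplicit false

namespace Pool.Agent.H.MP_57deef_al

open Set

variable {G : Type} [Group G] {ρ : G →* (ℝ ≃o ℝ)}

noncomputable def T (j : ℕ) : ℝ := 1 - (1 / 2) ^ j

theorem T_lt (j : ℕ) : T j < 1 := by
  have : (0 : ℝ) < (1 / 2) ^ j := by positivity
  unfold T; linarith

theorem T_mono : StrictMono T := fun a b hab => by
  have : ((1 : ℝ) / 2) ^ b < (1 / 2) ^ a := pow_lt_pow_right_of_lt_one₀ (by norm_num) (by norm_num) hab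
  unfold T; linarith

theorem T_zero : T 0 = 0 := by simp [T]

theorem T_big {b : ℝ} (hb : b < 1) : ∃ J, ∀ j ≥ J, b ≤ T j := by
  obtain ⟨n, hn⟩ := exists_pow_lt_of_lt_one (sub_pos.2 hb) (show (1 / 2 : ℝ) < 1 by norm_num)
  exact ⟨n, fun j hj => le_trans (by unfold T; linarith) (T_mono.monotone hj)⟩

theorem germ_T (h : Hyp ρ) {f : G} {N : ℕ} (hf : chi h f = -N) :
    ∃ J, ∀ j ≥ J, ρ f (T j) = T (j + N) := by
  obtain ⟨b, hb, h1⟩ := chi_spec h f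
  obtain ⟨J, hJ⟩ := T_big hb
  refine ⟨J, fun j hj => ?_⟩
  rw [h1 _ (hJ j hj) (T_lt j).le, hf, T, T, zpow_neg, zpow_natCast, pow_add, one_div, inv_pow,
    inv_pow]
  ring

def S (ρ : G →* (ℝ ≃o ℝ)) (j : ℕ) : Subgroup G := Fix ρ (Ici (T j))

theorem S_mono {i j : ℕ} (hij : i ≤ j) {g : G} (hg : g ∈ S ρ i) : g ∈ S ρ j :=
  fun x hx => hg x ((T_mono.monotone hij).trans hx)

def Lip (ρ : G →* (ℝ ≃o ℝ)) (α : G → G) (C : ℕ) : Prop :=
  ∃ J, ∀ j ≥ J, ∀ g ∈ S ρ j, α g ∈ S ρ (j + C)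

theorem Lip.comp {α β : G → G} {C D : ℕ} (ha : Lip ρ α C) (hb : Lip ρ β D) :
    Lip ρ (fun g => α (β g)) (D + C) := by
  obtain ⟨I, hI⟩ := ha
  obtain ⟨J, hJ⟩ := hb
  refine ⟨max I J, fun j hj g hg => ?_⟩
  rw [← add_assoc]
  exact hI _ (by omega) _ (hJ j (by omega) g hg)

theorem not_S (h : Hy ρ) {i j : ℕ} (hi : 0 < i) (hij : i < j) : ∃ g ∈ S ρ j, g ∉ S ρ i := by
  have i0 : 0 < T i := T_zero ▸ T_mono hi
  obtain ⟨s, r, r1, r2, s1, -, s2⟩ := h.h0.bump3 (T i) (T j) i0.le (T_mono hij) (T_lt j).le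
  exact ⟨s, fun x hx => s1 x (r2.le.trans hx), fun e =>
    (s2 _ i0 r1).ne' (e _ (mem_Ici.2 le_rfl))⟩

theorem Lip.conj (h : Hy ρ) {f : G} {N C : ℕ} (hf : chi h.h1 f = -N)
    (hL : Lip ρ (fun g => f * g * f⁻¹) C) : N ≤ C := by
  by_contra hc
  obtain ⟨I, hI⟩ := hL
  obtain ⟨J, hJ⟩ := germ_T h.h1 hf
  obtain ⟨g, g1, g2⟩ := not_S h (i := I + J + 1 + C) (j := I + J + 1 + N) (by omega) (by omega)
  refine g2 ?_
  have := hI (I + J + 1) (by omega) (f⁻¹ * g * f) fun x hx => ?_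
  · simpa [mul_assoc] using this
  · rw [mul_app, mul_app, g1, inv_app']
    rw [mem_Ici, ← hJ _ (by omega)]
    exact (ρ f).monotone hx

theorem step (h : Hy ρ) (α : G ≃* G) (hα : ∀ g, α g ∈ K h.h1 ↔ g ∈ K h.h1) (j : ℕ) :
    ∃ I, ∀ i ≥ I, ∀ g ∈ S ρ j, α g ∈ S ρ i := by
  obtain ⟨s, r, r1, r2, s1, s2, -⟩ := h.h1.bump2 (T j) 1 (T_zero ▸ T_mono.monotone j.zero_le)
    (T_lt j) le_rfl
  have n1 : chi h.h1 (α s) ≠ 0 := fun e => by
    have := (hα s).1 e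
    rw [mem_K, s2] at this
    exact one_ne_zero this
  obtain ⟨z, hz, h1⟩ := exists_NF h.h1 n1
  obtain ⟨I, hI⟩ := T_big (b := (z + 1) / 2) (by linarith)
  refine ⟨I, fun i hi g hg x hx => comm_fix h.h1 h1 ((hα g).2 ((chi_zero_iff _ _).2
    ⟨_, T_lt j, hg⟩)) ?_ x ?_⟩
  · exact ((comm_of_fix h.inj s1 fun t ht => hg t (r1.le.trans ht)).symm).map α
  · have := hI i hi
    have := mem_Ici.1 hx
    linarith

theorem ind (α : G ≃* G) {s : G} {J : ℕ} (hs : ∀ j ≥ J, ρ s⁻¹ (T j) = T (j + 1)) (y : ℕ → ℝ)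
    (h0 : ∀ g ∈ S ρ J, α g ∈ Fix ρ (Ici (y 0))) (hy : ∀ n, y n ≤ ρ (α s) (y (n + 1))) (n : ℕ) :
    ∀ g ∈ S ρ (J + n), α g ∈ Fix ρ (Ici (y n)) := by
  induction n with
  | zero => exact h0
  | succ n ih =>
    intro g hg x hx
    have h1 := ih (s * g * s⁻¹) (fun t ht => by
      rw [mul_app, mul_app, hg, inv_app]
      rw [mem_Ici, ← add_assoc, ← hs _ (by omega)]
      exact (ρ _).monotone ht) (ρ (α s) x) ((hy n).trans ((ρ _).monotone hx))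
    rw [map_mul α, map_mul α, map_inv α, mul_app, mul_app, inv_app'] at h1
    exact (ρ _).injective h1

theorem chi_aut_mul (h : Hyp ρ) (α : G ≃* G) (hα : ∀ g, α g ∈ K h ↔ g ∈ K h) {s : G}
    (hs : chi h s = 1) (g : G) : chi h (α g) = chi h g * chi h (α s) := by
  have := (hα (s ^ (-chi h g) * g)).2 (by rw [mem_K, chi_mul, chi_zpow, hs]; ring)
  rw [mem_K, map_mul, map_zpow, chi_mul, chi_zpow] at this
  linarith

theorem aut_main (h : Hy ρ) (α : G ≃* G) (hα : ∀ g, α g ∈ K h.h1 ↔ g ∈ K h.h1) :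
    (∀ g, chi h.h1 (α g) = chi h.h1 g) ∧ ∃ C, Lip ρ α C := by
  obtain ⟨s, s1, -⟩ := ex10 h
  obtain ⟨J, hJ⟩ := germ_T h.h1 (f := s⁻¹) (N := 1) (by rw [chi_inv, s1]; rfl)
  obtain ⟨I, hI⟩ := step h α hα J
  have e := chi_aut_mul h.h1 α hα s1 (α.symm s)
  rw [α.apply_symm_apply, s1] at e
  rcases Int.eq_one_or_neg_one_of_mul_eq_one (by rw [mul_comm]; exact e.symm :
    chi h.h1 (α s) * chi h.h1 (α.symm s) = 1) with m | m
  · refine ⟨fun g => by rw [chi_aut_mul h.h1 α hα s1, m, mul_one], ?_⟩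
    obtain ⟨L, hL⟩ := germ_T h.h1 (f := (α s)⁻¹) (N := 1) (by rw [chi_inv, m]; rfl)
    have := ind α hJ (fun n => T (I + L + n)) (hI _ (by omega)) fun n => by
      rw [← add_assoc, ← hL _ (by omega), inv_app]
    refine ⟨I + L, J, fun j hj g hg => ?_⟩
    obtain ⟨n, rfl⟩ := Nat.exists_eq_add_of_le hj
    exact S_mono (i := I + L + n) (by omega) (this n g hg)
  · exfalso
    obtain ⟨L, hL⟩ := germ_T h.h1 (f := α s) (N := 1) m
    have := ind α hJ (fun _ => T (I + L + 1)) (hI _ (by omega)) fun n => by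
      rw [hL _ (by omega)]
      exact T_mono.monotone (by omega)
    obtain ⟨g, g1, g2⟩ := not_S h (i := I + L + 1) (j := I + L + 2) (by omega) (by omega)
    have g3 : α.symm g ∈ K h.h1 := (hα _).1 (by
      rw [α.apply_symm_apply]
      exact (chi_zero_iff _ _).2 ⟨_, T_lt _, g1⟩)
    obtain ⟨b, hb, g4⟩ := (chi_zero_iff _ _).1 g3
    obtain ⟨n, hn⟩ := T_big hb
    have := this n (α.symm g) fun x hx => g4 x ((hn _ (by omega)).trans hx)
    rw [α.apply_symm_apply] at this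
    exact g2 this

end Pool.Agent.H.MP_57deef_al
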