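import Pool.Agent.H.MP_57deef_al.C

set_option autoImplicit false

namespace Pool.Agent.H.MP_57deef_al

open Set

variable {G : Type} [Group G] {ρ : G →* (ℝ ≃o ℝ)} {H : Type*} [Group H]

structure Dat (G : Type) [Group G] (H : Type*) [Group H] where
  φ : G →* H
  inj : Function.Injective φ
  a : H → G ≃* G
  ha : ∀ x g, φ (a x g) = x * φ g * x⁻¹
  cm : H → H → G
  hcm : ∀ x y, φ (cm x y) = x * y * x⁻¹ * y⁻¹
  gen : ∀ M : Subgroup G, (∀ x y, cm x y ∈ M) → ∀ g, g ∈ M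

namespace Dat

variable (D : Dat G H)

theorem a_mul (x y : H) (g : G) : D.a (x * y) g = D.a x (D.a y g) :=
  D.inj (by simp only [D.ha]; group)

theorem a_phi (f g : G) : D.a (D.φ f) g = f * g * f⁻¹ := D.inj (by simp [D.ha])

theorem a_one (g : G) : D.a 1 g = g := D.inj (by simp [D.ha])

def P1 (h : Hyp ρ) : Subgroup H where
  carrier := {x | ∀ g, D.a x g ∈ K h ↔ g ∈ K h}
  one_mem' := fun g => by rw [a_one]
  mul_mem' := fun {x y} hx hy g => by rw [a_mul, hx, hy]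
  inv_mem' := fun {x} hx g => by rw [← hx, ← a_mul, mul_inv_cancel, a_one]

theorem cm_mul (x y z : H) : D.cm (x * y) z = D.a x (D.cm y z) * D.cm x z :=
  D.inj (by simp only [map_mul, D.ha, D.hcm]; group)

theorem cm_symm (x y : H) : D.cm y x = (D.cm x y)⁻¹ :=
  D.inj (by simp only [map_inv, D.hcm]; group)

theorem cm_pow (h : Hy ρ) {x : H} (hx : x ∈ D.P1 h.h1) (z : H) (k : ℕ) :
    chi h.h1 (D.cm (x ^ k) z) = k * chi h.h1 (D.cm x z) := by
  induction k with
  | zero =>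
    have : D.cm 1 z = 1 := D.inj (by simp [D.hcm])
    simp [this, chi_one]
  | succ k ih =>
    rw [pow_succ', cm_mul, chi_mul, (aut_main h _ hx).1, ih]
    push_cast; ring

theorem lip_mul {x y : H} {C E : ℕ} (hx : Lip ρ (D.a x) C) (hy : Lip ρ (D.a y) E) :
    Lip ρ (D.a (x * y)) (E + C) := by
  have := hx.comp hy
  simpa only [← a_mul] using this

theorem lip_pow {x : H} {C : ℕ} (hx : Lip ρ (D.a x) C) (k : ℕ) : Lip ρ (D.a (x ^ k)) (k * C) := by
  induction k with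
  | zero => exact ⟨0, fun j _ g hg => by simpa [a_one] using hg⟩
  | succ k ih => rw [pow_succ', add_mul, one_mul]; exact D.lip_mul hx ih

theorem cm_nonneg (h : Hy ρ) {x y : H} (hx : x ∈ D.P1 h.h1) (hy : y ∈ D.P1 h.h1) :
    0 ≤ chi h.h1 (D.cm x y) := by
  by_contra hc
  obtain ⟨N, hN⟩ : ∃ N : ℕ, chi h.h1 (D.cm x y) = -((N + 1 : ℕ) : ℤ) :=
    ⟨(-chi h.h1 (D.cm x y) - 1).toNat, by omega⟩
  obtain ⟨-, C1, c1⟩ := aut_main h _ hx
  obtain ⟨-, C2, c2⟩ := aut_main h _ hy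
  obtain ⟨-, C3, c3⟩ := aut_main h _ (inv_mem hx)
  obtain ⟨-, C4, c4⟩ := aut_main h _ (inv_mem hy)
  set k := C1 + C2 + C3 + C4 + 1 with hk
  have e : chi h.h1 (D.cm (x ^ k) (y ^ k)) = -((k * k * (N + 1) : ℕ) : ℤ) := by
    rw [D.cm_pow h hx, D.cm_symm, chi_inv, D.cm_pow h hy, D.cm_symm, chi_inv, hN]
    push_cast; ring
  have L := D.lip_mul (D.lip_mul (D.lip_mul (D.lip_pow c1 k) (D.lip_pow c2 k)) (D.lip_pow c3 k))
    (D.lip_pow c4 k)
  rw [inv_pow, inv_pow, ← D.hcm] at L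
  have := Lip.conj h e (by rwa [show (D.a (D.φ _) : G → G) = _ from funext (D.a_phi _)] at L)
  have k0 : 0 < k := by omega
  nlinarith [Nat.mul_pos k0 k0]

theorem cm_zero (h : Hy ρ) {x y : H} (hx : x ∈ D.P1 h.h1) (hy : y ∈ D.P1 h.h1) :
    D.cm x y ∈ K h.h1 := by
  have h1 := D.cm_nonneg h hx hy
  have h2 := D.cm_nonneg h hy hx
  rw [D.cm_symm, chi_inv] at h2
  exact le_antisymm (by linarith) h1

include D in
theorem false (h : Hy ρ) : False := by
  obtain ⟨s, s1, s0⟩ := ex10 h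
  have ns : s ∉ K h.h1 := fun e => by rw [mem_K, s1] at e; exact one_ne_zero e
  let A : Subgroup H := D.P1 h.h1 ⊓ D.P1 h.h0
  have hA : ∀ x, x ∈ A ↔ Pres h (D.a x) := fun x =>
    ⟨fun e g => ⟨e.1 g, e.2 g⟩, fun e => ⟨fun g => (e g).1, fun g => (e g).2⟩⟩
  have hS : ∀ x, x ∉ A → Swap h (D.a x) := fun x hx =>
    (pres_or_swap h _).resolve_left fun e => hx ((hA x).2 e)
  have two : ∀ x y, x ∉ A → y ∉ A → x * y ∈ A := fun x y hx hy => (hA _).2 fun g => by
    rw [D.a_mul, (hS x hx _).1, (hS x hx _).2, (hS y hy _).1, (hS y hy _).2]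
    exact ⟨Iff.rfl, Iff.rfl⟩
  by_cases all : ∀ x, x ∈ A
  · exact ns (D.gen _ (fun x y => D.cm_zero h (all x).1 (all y).1) s)
  obtain ⟨t, ht⟩ := not_forall.1 all
  let N : Subgroup H := (K h.h1 ⊓ K h.h0).map D.φ
  haveI : N.Normal := ⟨by
    rintro _ ⟨g, hg, rfl⟩ x
    refine ⟨D.a x g, ?_, D.ha x g⟩
    by_cases hx : x ∈ A
    · exact ⟨(hx.1 g).2 hg.1, (hx.2 g).2 hg.2⟩
    · exact ⟨(hS x hx g).1.2 hg.2, (hS x hx g).2.2 hg.1⟩⟩
  let q : H →* H ⧸ N := QuotientGroup.mk' N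
  have cA : ∀ x ∈ A, ∀ y ∈ A, Commute (q x) (q y) := fun x hx y hy => by
    have : q (x * y * x⁻¹ * y⁻¹) = 1 := (QuotientGroup.eq_one_iff _).2
      ⟨D.cm x y, ⟨D.cm_zero h hx.1 hy.1, D.cm_zero h.flip hx.2 hy.2⟩, D.hcm x y⟩
    rw [map_mul, map_mul, map_mul, map_inv, map_inv, mul_inv_eq_one, mul_inv_eq_iff_eq_mul] at this
    exact this
  have phiA : ∀ f, D.φ f ∈ A := fun f => (hA _).2 fun g => by
    rw [D.a_phi, mem_K, mem_K, mem_K, mem_K, chi_conj, chi_conj]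
    exact ⟨Iff.rfl, Iff.rfl⟩
  have sq : ∀ y, y ∉ A → ∀ x, Commute (q x) (q y * q y) := fun y hy x => by
    by_cases hx : x ∈ A
    · simpa using cA x hx _ (two y y hy hy)
    · have h1 := cA _ (two x y hx hy) _ (two y y hy hy)
      rw [map_mul, map_mul] at h1
      have h2 := h1.mul_left ((Commute.refl (q y)).mul_right (Commute.refl (q y))).inv_left
      simpa using h2
  have cj : ∀ y, y ∉ A → ∀ z ∈ A, q t * q z * (q t)⁻¹ = q y * q z * (q y)⁻¹ := fun y hy z hz => by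
    have h1 := (cA _ (two y⁻¹ t (fun e => hy (inv_mem_iff.1 e)) ht) z hz).eq
    rw [map_mul, map_inv] at h1
    calc q t * q z * (q t)⁻¹ = q y * ((q y)⁻¹ * q t * q z) * (q t)⁻¹ := by group
      _ = _ := by rw [h1]; group
  have key : ∀ x y, y ∉ A → q (D.φ (D.cm x y)) * (q t * q (D.φ (D.cm x y)) * (q t)⁻¹) = 1 := by
    intro x y hy
    rw [cj y hy _ (phiA _), D.hcm]
    simp only [map_mul, map_inv]
    calc q x * q y * (q x)⁻¹ * (q y)⁻¹ * (q y * (q x * q y * (q x)⁻¹ * (q y)⁻¹) * (q y)⁻¹)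
        = q x * (q y * q y) * ((q x)⁻¹ * (q y * q y)⁻¹) := by group
      _ = 1 := by rw [(sq y hy x).eq]; group
  let M : Subgroup G :=
    { carrier := {f | chi h.h1 f + chi h.h1 (D.a t f) = 0}
      one_mem' := by simp [chi_one]
      mul_mem' := fun {a b} ha hb => by
        simp only [mem_setOf_eq, map_mul, chi_mul] at *
        linarith
      inv_mem' := fun {a} ha => by
        simp only [mem_setOf_eq, map_inv, chi_inv] at *
        linarith }
  have key2 : ∀ x y, y ∉ A → D.cm x y ∈ M := fun x y hy => by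
    have h1 := key x y hy
    rw [← map_inv, ← map_mul, ← map_mul, ← map_mul, ← D.ha, ← map_mul] at h1
    obtain ⟨g, hg, e⟩ := (QuotientGroup.eq_one_iff _).1 h1
    have h2 : chi h.h1 g = 0 := hg.1
    rw [D.inj e, chi_mul] at h2
    exact h2
  have := D.gen M (fun x y => by
    by_cases hy : y ∈ A
    · by_cases hx : x ∈ A
      · have h1 : chi h.h1 _ = 0 := D.cm_zero h hx.1 hy.1
        have h2 : chi h.h1 _ = 0 := (hS t ht _).1.2 (D.cm_zero h.flip hx.2 hy.2)
        change _ + _ = (0 : ℤ)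
        rw [h1, h2, add_zero]
      · rw [D.cm_symm]
        exact M.inv_mem (key2 y x hx)
    · exact key2 x y hy) s
  have h2 : chi h.h1 _ = 0 := (hS t ht s).1.2 s0
  change _ + _ = (0 : ℤ) at this
  rw [s1, h2] at this
  exact one_ne_zero this

end Dat

theorem not_int (h : Hy ρ) (e : commutator H ≃* G) : False := by
  let φ : G →* H := (commutator H).subtype.comp e.symm.toMonoidHom
  have hφ : ∀ x : commutator H, φ (e x) = x := fun x => by simp [φ]
  refine Dat.false (H := H) ⟨φ, Subtype.val_injective.comp e.symm.injective,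
    fun x => e.symm.trans ((MulAut.conjNormal x).trans e), fun x g => ?_,
    fun x y => e ⟨x * y * x⁻¹ * y⁻¹,
      Subgroup.commutator_mem_commutator (Subgroup.mem_top x) (Subgroup.mem_top y)⟩,
    fun x y => hφ _, fun M hM g => ?_⟩ h
  · simp only [MulEquiv.trans_apply, hφ, MulAut.conjNormal_apply]
    rfl
  · have : commutator H ≤ M.map φ := Subgroup.commutator_le.2 fun x _ y _ => ⟨_, hM x y, hφ _⟩
    obtain ⟨f, hf, e1⟩ := this (e.symm g).2
    rwa [← e.symm.injective (Subtype.val_injective e1)]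

end Pool.Agent.H.MP_57deef_al
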